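import Pool.Agent.Work.MP_9ddcd7_co.Final

set_option autoImplicit false

namespace Pool.Agent.Results.MP_9ddcd7_co.ModularPolynomial

universe u

/-- Every finite group `G` of order `n` is isomorphic to the group of all automorphisms of a finite modular lattice
`L` with at most `n ^ 10` elements; moreover `L` has at most `(n + 2) ^ 5` elements. -/
theorem result (G : Type u) [Group G] [Finite G] :
    ∃ (L : Type) (_ : Lattice L) (_ : IsModularLattice L) (_ : Finite L),
      Nonempty ((L ≃o L) ≃* G) ∧ Nat.card L ≤ Nat.card G ^ 10 ∧ Nat.card L ≤ (Nat.card G + 2) ^ 5 := by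
  obtain ⟨H, hgrp, hfin, ⟨e⟩⟩ := Finite.exists_type_univ_nonempty_mulEquiv.{u, 0} G
  have hcard : Nat.card G = Nat.card H := Nat.card_congr e.toEquiv
  rw [hcard]
  rcases subsingleton_or_nontrivial H with hH | hH
  · obtain ⟨L, h1, h2, h3, h4, ⟨f⟩⟩ := Pool.Agent.Work.MP_9ddcd7_co.exists_lattice H
    refine ⟨L, h1, h2, h3, ⟨f.trans e.symm⟩, h4, h4.trans ?_⟩
    have h5 : Nat.card H = 1 := Nat.card_unique
    rw [h5]
    norm_num
  · set n := Nat.card H with hn
    have hn2 : 2 ≤ n := Finite.one_lt_card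
    let e0 : H ≃ Fin n := Finite.equivFin H
    let s : ℕ → H := fun i => if h : i < n then e0.symm ⟨i, h⟩ else 1
    have hs : ∀ g : H, ∃ i, i < n ∧ s i = g := by
      intro g
      refine ⟨(e0 g).1, (e0 g).2, ?_⟩
      have : (e0 g).1 < n := (e0 g).2
      simp only [s, this, dif_pos]
      simp
    have h5 : Nat.card (Pool.Agent.Work.MP_9ddcd7_co.Lat s n) ≤ (n + 2) ^ 5 := by
      refine (Pool.Agent.Work.MP_9ddcd7_co.lat_card s n).trans (le_of_eq ?_)
      rw [← hn]
      ring
    refine ⟨Pool.Agent.Work.MP_9ddcd7_co.Lat s n, inferInstance,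
      Pool.Agent.Work.MP_9ddcd7_co.piModular _, inferInstance, ?_, h5.trans ?_, h5⟩
    · exact ⟨(MulEquiv.ofBijective (Pool.Agent.Work.MP_9ddcd7_co.actHom s n)
        ⟨Pool.Agent.Work.MP_9ddcd7_co.actHom_injective s n,
          Pool.Agent.Work.MP_9ddcd7_co.actHom_surjective s n (by omega) hs⟩).symm.trans e.symm⟩
    · have h1 : n + 2 ≤ n ^ 2 := by nlinarith
      calc (n + 2) ^ 5 ≤ (n ^ 2) ^ 5 := Nat.pow_le_pow_left h1 5
        _ = n ^ 10 := by ring

end Pool.Agent.Results.MP_9ddcd7_co.ModularPolynomial
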